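import Pool.Agent.Q193.LT.Cyc

/-!
# De Rham conjugates of Hodge classes and the cubic hypersurfaces `T(x, y, z) = 1`

For a smooth projective complex variety `Y` let `AH^n(Y)` be the space of the Hodge classes
`v ∈ H^{2n}(Y^an, ℚ(n))` such that for all automorphisms `σ` of `ℂ` the class `(v^dR)_σ` is the image of a
Hodge class of `Y_σ` (the classes with the property of question Q1), and `Hdg^n(Y)` the space of all
Hodge classes. Both are functors of Chow motives, as correspondences respect Hodge classes and commute
with conjugation. For a separated scheme `X` of finite type over `ℂ` let `W(X)` be its weight complex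
(Gillet, Soulé), with `W(X) = h(X)` for smooth projective `X`, and for `n, i ∈ ℤ` let

* `A^{n,i}(X) = H^i(AH^n(W(X)))`;
* `B^{n,i}(X) = H^i(Hdg^n(W(X)))`, which is the space of Hodge classes in
  `Gr^W_{2n} H^{2n+i}_c(X, ℚ(n))`.

The inclusion of `AH^n` in `Hdg^n` gives maps `A^{n,i}(X) → B^{n,i}(X)`; `BijAll C X` says that they are
isomorphisms for all `n` and `i`. For smooth projective `Y` it is the statement of question Q1 for `Y`
and all degrees.

**Theorem.** (1) Question Q1 has a positive answer for all smooth projective complex varieties if and only
if the maps `A^{n,i}(Z) → B^{n,i}(Z)` are isomorphisms for the smooth affine cubic hypersurfaces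
`Z : T(x, y, z) = 1` of all complex trilinear forms `T`.

(2) For all `n`, it has a positive answer for all smooth projective complex varieties of dimension at most
`n` if and only if the maps are isomorphisms for the hypersurfaces `T(x, y, z) = 1` such that one of the
three blocks of variables has at most `n + 2` variables (the other two blocks are arbitrary).

(3) Unconditionally, the maps are isomorphisms for the hypersurfaces `T(x, y, z) = 1` such that one of the
three blocks of variables has at most five variables.
-/

set_option autoImplicit false

open CategoryTheory CategoryTheory.Limits AlgebraicGeometry Pool.Agent.Y116.UV Pool.Agent.Z125.UN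
  Pool.Agent.Q193.LT

universe w

namespace Pool.Agent.Results.MP_e2e4f5_ag.CubicHypersurfaces

/-- The maps are isomorphisms for all smooth projective schemes of dimension at most `n`. -/
def Proj {k E : Type} [Field k] [Field E] (C : PairData.{w} k (ℤ × ℤ) E) (n : ℕ) : Prop :=
  ∀ Y : Sch k, SmoothProj Y → topologicalKrullDim Y.left ≤ n → BijAll C Y

/-- The maps are isomorphisms for all hypersurfaces `T = 1` with a block of at most `m` variables. -/
def Forms {k E : Type} [Field k] [Field E] (C : PairData.{w} k (ℤ × ℤ) E) (m : ℕ) : Prop :=
  ∀ (a b c : ℕ) (T : Fin a → Fin b → Fin c → k), (a ≤ m ∨ b ≤ m ∨ c ≤ m) → BijAll C (hypS T)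

/-- **Conjugates of Hodge classes and cubic hypersurfaces.** See the explanations above. The known case that
is used for the third part is the Hodge conjecture in dimension at most three (Lefschetz). -/
theorem result {C : PairData.{w} ℂ (ℤ × ℤ) ℚ} (hC : IsWeightPair C) (hg : WeightGen C)
    (point : BijAll C (aff ℂ ℂ)) (threefolds : Proj C 3) :
    ((∀ Y : Sch ℂ, SmoothProj Y → BijAll C Y) ↔
      ∀ (a b c : ℕ) (T : Fin a → Fin b → Fin c → ℂ), BijAll C (hypS T)) ∧
    (∀ n : ℕ, Proj C n ↔ Forms C (n + 2)) ∧ Forms C 5 :=
  ⟨wg_all hg hC point, fun n => wg_dim hg hC point n, (wg_dim hg hC point 3).mp threefolds⟩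

end Pool.Agent.Results.MP_e2e4f5_ag.CubicHypersurfaces
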