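import Pool.Agent.Q49.WU.Pair

/-!
# The absolute Hodge conjecture, `ℓ`-adic part: cubic hypersurfaces, one codimension at a time

For a smooth projective complex variety `Y` let `B^n(Y)` be the `ℚ`-vector space of the Hodge classes of
degree `2n` of `Y`, and let `A^n(Y) ⊆ B^n(Y)` be the subspace of the classes `v` such that for all primes
`ℓ` and all `σ ∈ Aut(ℂ/ℚ)` the conjugate `(v^ℓ)_σ` is the image of a Hodge class of `Y_σ` (the ℓ-adic
part, question Q2). Both are additive functors of Chow motives over `ℂ`. For a separated scheme `X` of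
finite type over `ℂ` let `W(X)` be its weight complex (Gillet, Soulé), and
`A^{n,i}(X) = H^i(A^n(W(X)))`, `B^{n,i}(X) = H^i(B^n(W(X)))`, with the maps
`A^{n,i}(X) → B^{n,i}(X)`. (`B^{n,i}(X)` is the space of Hodge classes of `Gr^W_{2n} H^{2n+i}_c(X)(n)`.)
`Ell C n X` says that these maps are isomorphisms for the given `n` and all `i`; for smooth projective
`X` it is question Q2 for `X` in degree `2n`. `BijAll C X` says this for all `n`.

**Theorem.** (1) Let `n ≥ 0`. Question Q2 has a positive answer in degree `2n` for all smooth projective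
complex varieties if and only if the maps `A^{n+a-1,i}(Z) → B^{n+a-1,i}(Z)` are isomorphisms for all `i`
and the smooth affine cubic hypersurfaces `Z : T(x, y, z) = 1` of all complex trilinear forms `T`, where
`a` is the number of the variables `x_i`.

(2) Unconditionally, the maps `A^{m,i}(Z) → B^{m,i}(Z)` are isomorphisms for all `i`, all `m ≤ a` and all
complex trilinear forms `T` in `a` variables `x_i` and any numbers of variables `y_j`, `z_l`.

(3) For all `d`, question Q2 has a positive answer for all smooth projective complex varieties of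
dimension at most `d` if and only if the maps `A^{n,i}(Z) → B^{n,i}(Z)` are isomorphisms for all `n`, `i`
and the hypersurfaces `Z : T(x, y, z) = 1` such that one of the three blocks of variables has at most
`d + 2` variables; unconditionally they are isomorphisms if one of the blocks has at most five variables.
-/

set_option autoImplicit false

open CategoryTheory CategoryTheory.Limits AlgebraicGeometry Pool.Agent.Y116.UV Pool.Agent.Z125.UN
  Pool.Agent.Q193.LT Pool.Agent.Q49.WU

universe w

namespace Pool.Agent.Results.MP_e2e4f5_ag.EllAdicPart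

/-- The maps of codimension `n` are isomorphisms. -/
def Ell (C : PairData.{w} ℂ (ℤ × ℤ) ℚ) (n : ℤ) (X : Sch ℂ) : Prop :=
  BijAt C Prod.fst n X

/-- All maps are isomorphisms for all smooth projective schemes of dimension at most `d`. -/
def Proj (C : PairData.{w} ℂ (ℤ × ℤ) ℚ) (d : ℕ) : Prop :=
  ∀ Y : Sch ℂ, SmoothProj Y → topologicalKrullDim Y.left ≤ d → BijAll C Y

/-- All maps are isomorphisms for all hypersurfaces `T = 1` with a block of at most `m` variables. -/
def Forms (C : PairData.{w} ℂ (ℤ × ℤ) ℚ) (m : ℕ) : Prop :=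
  ∀ (a b c : ℕ) (T : Fin a → Fin b → Fin c → ℂ), (a ≤ m ∨ b ≤ m ∨ c ≤ m) → BijAll C (hypS T)

/-- **The `ℓ`-adic part of the absolute Hodge conjecture.** See the explanations above; `divisors` is
Lefschetz' theorem on `(1, 1)`-classes, `threefolds` the Hodge conjecture in dimension at most three. -/
theorem result {C : PairData.{w} ℂ (ℤ × ℤ) ℚ} (hC : IsWeightPair C) (hg : WeightGen C)
    (hw : GenAt C Prod.fst) (point : BijAll C (aff ℂ ℂ))
    (divisors : ∀ n : ℤ, n ≤ 1 → ∀ Y : Sch ℂ, SmoothProj Y → Ell C n Y) (threefolds : Proj C 3) :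
    (∀ n : ℤ, (∀ Y : Sch ℂ, SmoothProj Y → Ell C n Y) ↔
      ∀ (a b c : ℕ) (T : Fin a → Fin b → Fin c → ℂ), Ell C (n + (a - 1)) (hypS T)) ∧
    (∀ (a b c : ℕ) (T : Fin a → Fin b → Fin c → ℂ) (m : ℤ), m ≤ a → Ell C m (hypS T)) ∧
    (∀ d : ℕ, Proj C d ↔ Forms C (d + 2)) ∧ Forms C 5 := by
  have h : ∀ n : ℤ, (∀ Y : Sch ℂ, SmoothProj Y → Ell C n Y) ↔
      ∀ (a b c : ℕ) (T : Fin a → Fin b → Fin c → ℂ), Ell C (n + (a - 1)) (hypS T) :=
    fun n => sp_at_iff hw hC graded_weight point n
  refine ⟨h, fun a b c T m hm => ?_, fun d => wg_dim hg hC point d,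
    (wg_dim hg hC point 3).mp threefolds⟩
  have h2 := (h (m - (a - 1))).mp (divisors _ (by omega)) a b c T
  rwa [sub_add_cancel] at h2

end Pool.Agent.Results.MP_e2e4f5_ag.EllAdicPart
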