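import Pool.Agent.Q67.TA.Rel

/-!
# MP_e2e4f5_ag: the fourth power and the index of the classes satisfying the de Rham part
-/

set_option autoImplicit false

open CategoryTheory AlgebraicGeometry

universe u

namespace Pool.Agent.Results.MP_e2e4f5_ag.FourthPowerIndex

open Pool.Agent.H914
open Pool.Agent.Y121.AHS hiding Maps Conjugates IsAbsHodge
open Pool.Agent.Q67.TP.S
open Pool.Agent.Q67.TA.R

/-- Let `T` be a Hodge theory (in the use `Y ↦ H(Y, ℚ)` for smooth projective complex varieties) and
`D` a family of conjugate theories `T' i` (the theories `Y ↦ H(Y_σ, ℚ)` for the automorphisms `σ`
of `ℂ`), each with a relation between rational classes of even degree of `Y` and of `Y_σ`. For the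
de Rham part of the absolute Hodge conjecture two classes are related if their components in each
degree `2 k`, twisted by `(2 π i) ^ k`, correspond under the isomorphism given by `σ` for algebraic
de Rham cohomology; for the `ℓ`-adic part if they correspond under the isomorphism given by `σ`
for `ℓ`-adic cohomology (for one `ℓ`, or for all `ℓ`). These relations are stable under linear
combinations, products, pull-backs and push-forwards and contain the pairs of classes of algebraic
cycles. `absHodge D` are the Hodge classes which are related to a Hodge class for each `i`; the
conjecture says that these are all Hodge classes. Let `X` be a variety such that a polarisation of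
the cohomology of `X` and the projector to the cohomology of odd degree are given by classes in
`absHodge D` on `X × X` (this is so for every smooth projective variety). Let `L(R)` be the Lie
algebra of the operators on the cohomology of `X` which kill (as derivations) the classes in `R` on
all powers of `X`.

Then there is `N` in `{1, 2, ..., ∞}` such that the quotients of the number of linearly independent
Hodge classes on `X^n` by the number of linearly independent classes in `absHodge D` converge
to `N`, and

* `N = 1` if and only if all Hodge classes on all powers of `X` are linear combinations of classes
  in `absHodge D` (the conjecture for the powers of `X`); otherwise asymptotically at most one half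
  of them are; if `N` is finite, then `N - 1` Hodge classes on powers of `X` generate all of them
  over `absHodge D`;
* `N` is finite if and only if `L(absHodge D)` kills all Hodge classes on all powers of `X`, and if
  and only if `L(absHodge D)` kills the Hodge classes on `X^4` and its elements which lie in the
  centre of the algebra of the operators given by Hodge classes on `X × X` kill all Hodge classes on
  all powers;
* if all Hodge classes on `X^4` are linear combinations of classes in `absHodge D` and no nonzero
  element of the centre of the algebra of the operators given by `absHodge D` on `X × X` is
  skew-symmetric, then `N` is finite. -/
theorem result {k : Type u} [Field k] {𝒱 : VarClass k} {ops : CycleOps 𝒱} (T : HodgeTheory ops)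
    (D : Conjugates T) (X : 𝒱.Obj) [Nontrivial (RH T X)] (u : ROp T X)
    (hu : PolarisedBy (absHodge D) X u) (ho : OddIn (absHodge D) X) :
    ∃ N : ℕ∞, Law (hodge T) (absHodge D) X N ∧ FourFor (hodge T) (absHodge D) X N :=
  abs_law D X hu ho

end Pool.Agent.Results.MP_e2e4f5_ag.FourthPowerIndex
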