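import Pool.Agent.Q82.PD.Hodge

/-!
# The absolute Hodge conjecture: Hodge classes of one codimension on squares

Let `X` be a smooth projective complex variety of dimension `n`. In the use `T` is the cohomology
`Y ↦ H(Y, ℚ)` with its Hodge decomposition, the conjugate theories are `Y ↦ H(Y_σ, ℚ)` for the
automorphisms `σ` of `ℂ`, each with a family of comparison isomorphisms. If this family consists of the
comparison isomorphism given by de Rham cohomology then `IsAbsHodge` for the Hodge class `v` is the
assertion of Q1 for `v` and all `σ`; if it consists of the one given by `ℓ`-adic cohomology it is the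
assertion of Q2 for `v`, `ℓ` and all `σ`; if it consists of all of these isomorphisms, it is Deligne's
formulation (the same `v_σ` for all comparison isomorphisms). The theorem holds for each of these
choices. We say that `v` is good if it satisfies the assertion. Let `d < n`.

1. All Hodge classes on `X × X` of the **one** codimension `d` are good if and only if all Hodge classes on
   `X × X`, of any codimension, of the Kunneth types `(a, b)` with `|n - a| + |n - b| ≥ 2 (n - d)` are good.

2. In this case the Hodge classes on `X × X` of the codimensions `q ≤ d` and `q ≥ 2 n - d`, and those on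
   `X` of the codimensions `q ≤ d` and `q ≥ n - d` are good (so those of all codimensions on `X` if
   `n ≤ 2 d + 1`).

3. Let `n ≥ 1`. All Hodge classes on all powers of `X` are good if and only if for every `N` there are a
   power `Y` of `X` and **one** codimension `d` with `N ≤ d < dim Y`, such that the Hodge classes of
   codimension `d` on `Y × Y` are good.

For example, the absolute Hodge conjecture for codimension two on `X × X` for a variety of dimension
five implies it for `X`. `pw X n` is the product of `n + 1` copies of `X`.
-/

set_option autoImplicit false

open CategoryTheory AlgebraicGeometry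

universe u

namespace Pool.Agent.Results.MP_e2e4f5_ag.OneCodimensionOnSquares

open Pool.Agent.H914 VarClass Obj Pool.Agent.Y121.AHS Pool.Agent.Q82.PD
open Pool.Agent.Y133.Half (pw)

/-- **Hodge classes of one codimension on squares.** -/
theorem result {k : Type u} [Field k] {𝒱 : VarClass k} {ops : CycleOps 𝒱}
    (T : HodgeTheory ops) (D : Full.Conjugates T) (X : 𝒱.Obj) :
    (∀ d < X.dim, (SquareIsAbs D X d ↔ FarIsAbs D X d) ∧
      (SquareIsAbs D X d →
        (∀ q, q ≤ d ∨ 2 * X.dim - d ≤ q → SquareIsAbs D X q) ∧
        ∀ q, q ≤ d ∨ X.dim - d ≤ q → HodgeIsAbs D X q)) ∧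
    (1 ≤ X.dim → ((∀ n j, HodgeIsAbs D (pw X n) j) ↔
      ∀ N, ∃ m d, N ≤ d ∧ d < (pw X m).dim ∧ SquareIsAbs D (pw X m) d)) :=
  ⟨fun _ hd => hodge_one D X hd, hodge_powers D X⟩

end Pool.Agent.Results.MP_e2e4f5_ag.OneCodimensionOnSquares
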